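import Pool.Agent.Helper26.Er.Defs
import Pool.Agent.Helper26.Ip.Asm
import Pool.Graph.R_pool_sql_team_seeded_63374d34.N916.BRF4
import Pool.Graph.R_pool_sql_team_seeded_63374d34.N141.BRUNIF

/-!
# Linear regression: an orthonormal triple with a fourth moment identity (MP_6b977f_mp, ER E9a)
-/

set_option autoImplicit false
set_option linter.unusedSectionVars false
open MeasureTheory Filter Topology ProbabilityTheory
open scoped ContDiff ENNReal InnerProductSpace

namespace Pool.Agent.Helper47.Er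

open Pool.Agent.W745.RW (lap W)
open Pool.Agent.N661.BR (MW J0 IsStationary shift meas_eval meas_shift IsGaussianLaw lin meas_lin
  QV KV Bal conj_W W_zero cov cf unif BB)
open Pool.Agent.N916.BR
open Pool.Agent.Helper37.BC
open Pool.Agent.Helper26.Ip
open Complex (I)

noncomputable section

section second

variable {μ : Measure MW} [IsProbabilityMeasure μ] {m : ℝ} {ν : Measure ℝ} [IsProbabilityMeasure ν]

theorem l2bd (hI : ∀ w : ℂ, Integrable (fun f : MW => f w ^ 2) μ)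
    (h2 : ∀ w w' : ℂ, ∫ f : MW, f w * f w' ∂μ = m * cov ν (w - w')) (K : ℕ) (s : Cb)
    (hs : s ∈ PK K) (B : ℝ) (hB : 0 ≤ B) (hb : ∀ α, ‖tau α s‖ ≤ B) :
    eLpNorm (fun f : MW => Y f s) 2 μ ≤ ENNReal.ofReal (m * B ^ 2) ^ (1 / 2 : ℝ) := by
  rw [eLpNorm_eq_lintegral_rpow_enorm_toReal (by norm_num) (by norm_num)]
  have e4 : (2 : ENNReal).toReal = 2 := by simp
  rw [e4]
  refine ENNReal.rpow_le_rpow ?_ (by norm_num)
  refine le_trans (le_of_eq (lintegral_congr fun f => ?_)) (sec_ind hI h2 K s hs B hB hb)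
  rw [← ofReal_norm, ENNReal.ofReal_rpow_of_nonneg (norm_nonneg _) (by norm_num)]
  congr 1
  exact_mod_cast Real.rpow_natCast ‖Y f s‖ 2

theorem Ymem (hI : ∀ w : ℂ, Integrable (fun f : MW => f w ^ 2) μ)
    (h2 : ∀ w w' : ℂ, ∫ f : MW, f w * f w' ∂μ = m * cov ν (w - w')) (K : ℕ) (s : Cb)
    (hs : s ∈ PK K) : MemLp (fun f : MW => Y f s) 2 μ := by
  obtain ⟨B, hB, hb⟩ := tau_bd s
  exact ⟨(Y_meas s).aestronglyMeasurable, (l2bd hI h2 K s hs B hB hb).trans_lt
    (ENNReal.rpow_lt_top_of_nonneg (by norm_num) ENNReal.ofReal_ne_top)⟩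

theorem PK_mono (K : ℕ) : PK K ≤ PK (K + 1) := by
  unfold PK
  exact Finsupp.supported_mono fun p (hp : p.1.natAbs ≤ K) => Nat.le_succ_of_le hp

theorem conv (hI : ∀ w : ℂ, Integrable (fun f : MW => f w ^ 2) μ)
    (h2 : ∀ w w' : ℂ, ∫ f : MW, f w * f w' ∂μ = m * cov ν (w - w')) (K : ℕ) (s : Cb)
    (hs : s ∈ PK (K + 1)) : ∃ t : ℕ → Cb, (∀ n, t n ∈ PK K) ∧
      Tendsto (fun n => eLpNorm (fun f : MW => Y f (t n) - Y f s) 2 μ) atTop (𝓝 0) ∧
      ∃ C : ℝ, 0 ≤ C ∧ ∀ (n : ℕ) (α : ℝ), ‖tau α (t n) - tau α s‖ ≤ C * (1 / ((n : ℝ) + 1)) := by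
  obtain ⟨t, ht, -, C, hC, htau⟩ := approx K s hs
  refine ⟨t, ht, ?_, C, hC, htau⟩
  have hb : ∀ n : ℕ, eLpNorm (fun f : MW => Y f (t n) - Y f s) 2 μ ≤
      ENNReal.ofReal (m * (C * (1 / ((n : ℝ) + 1))) ^ 2) ^ (1 / 2 : ℝ) := by
    intro n
    have h := l2bd hI h2 (K + 1) (t n - s) ((PK (K + 1)).sub_mem (PK_mono K (ht n)) hs)
      (C * (1 / ((n : ℝ) + 1))) (by positivity) (fun α => by rw [map_sub]; exact htau n α)
    simpa only [map_sub] using h
  have hlim : Tendsto (fun n : ℕ => ENNReal.ofReal (m * (C * (1 / ((n : ℝ) + 1))) ^ 2) ^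
      (1 / 2 : ℝ)) atTop (𝓝 0) := by
    have h0 : Tendsto (fun n : ℕ => m * (C * (1 / ((n : ℝ) + 1))) ^ 2) atTop
        (𝓝 (m * (C * 0) ^ 2)) :=
      ((tendsto_one_div_add_atTop_nhds_zero_nat.const_mul C).pow 2).const_mul _
    have h1 : (m * (C * 0) ^ 2 : ℝ) = 0 := by ring
    rw [h1] at h0
    have h2 := (ENNReal.continuous_rpow_const (y := (1 / 2 : ℝ))).tendsto (0 : ENNReal)
    rw [ENNReal.zero_rpow_of_pos (by norm_num)] at h2
    have h3 := (ENNReal.continuous_ofReal.tendsto (0:ℝ)).comp h0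
    rw [ENNReal.ofReal_zero] at h3
    exact h2.comp h3
  exact tendsto_of_tendsto_of_tendsto_of_le_of_le tendsto_const_nhds hlim
    (fun n => zero_le) hb

theorem two_lin (K : ℕ) (H : Cb → Cb → ℂ)
    (hadd : ∀ a ∈ PK K, ∀ a' ∈ PK K, ∀ b ∈ PK K, H (a + a') b = H a b + H a' b)
    (hsmul : ∀ z : ℂ, ∀ a ∈ PK K, ∀ b ∈ PK K, H (z • a) b = z * H a b)
    (hsym : ∀ a b, H a b = H b a)
    (hs : ∀ p q : ℤ × ℂ, p.1.natAbs ≤ K → q.1.natAbs ≤ K →
      H (Finsupp.single p 1) (Finsupp.single q 1) = 0) :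
    ∀ a ∈ PK K, ∀ b ∈ PK K, H a b = 0 := by
  have step : ∀ b ∈ PK K, (∀ p : ℤ × ℂ, p.1.natAbs ≤ K → H (Finsupp.single p 1) b = 0) →
      ∀ a ∈ PK K, H a b = 0 := by
    intro b hb h a ha
    rw [PK_eq] at ha
    induction ha using Submodule.span_induction with
    | mem x hx =>
      obtain ⟨p, hp, rfl⟩ := hx
      exact h p hp
    | zero =>
      have := hsmul 0 0 (PK K).zero_mem b hb
      rw [zero_smul, zero_mul] at this
      exact this
    | add x y hx' hy' hx hy =>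
      rw [← PK_eq] at hx' hy'
      rw [hadd x hx' y hy' b hb, hx, hy, add_zero]
    | smul z x hx' hx =>
      rw [← PK_eq] at hx'
      rw [hsmul z x hx' b hb, hx, mul_zero]
  intro a ha b hb
  refine step b hb (fun p hp => ?_) a ha
  rw [hsym]
  exact step _ (single_mem K p hp 1) (fun q hq => hs q p hq hp) b hb

theorem int2 {F G : MW → ℂ} (hF : MemLp F 2 μ) (hG : MemLp G 2 μ) :
    Integrable (fun f => F f * G f) μ :=
  memLp_one_iff_integrable.1 (hG.mul' (r := 1) hF)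

theorem two (hI : ∀ w : ℂ, Integrable (fun f : MW => f w ^ 2) μ)
    (h2 : ∀ w w' : ℂ, ∫ f : MW, f w * f w' ∂μ = m * cov ν (w - w')) (K : ℕ) :
    ∀ a ∈ PK K, ∀ b ∈ PK K, ∫ f : MW, Y f a * Y f b ∂μ = m * Bf ν a b := by
  induction K with
  | zero =>
    intro a ha b hb
    have key := two_lin 0 (fun a b => ∫ f : MW, Y f a * Y f b ∂μ - m * Bf ν a b) ?_ ?_ ?_ ?_
      a ha b hb
    · exact sub_eq_zero.1 key
    · intro a ha a' ha' b hb
      have ei : ∫ f : MW, Y f (a + a') * Y f b ∂μ =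
          ∫ f : MW, Y f a * Y f b ∂μ + ∫ f : MW, Y f a' * Y f b ∂μ := by
        have i1 := int2 (Ymem hI h2 0 a ha) (Ymem hI h2 0 b hb)
        have i2 := int2 (Ymem hI h2 0 a' ha') (Ymem hI h2 0 b hb)
        refine Eq.trans ?_ (integral_add i1 i2)
        refine integral_congr_ae (Eventually.of_forall fun f => ?_)
        simp only [map_add]
        ring
      rw [Bf_add, ei]
      ring
    · intro z a ha b hb
      rw [Bf_smul, mul_sub, ← integral_const_mul]
      congr 1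
      · refine integral_congr_ae (Eventually.of_forall fun f => ?_)
        simp only [map_smul, smul_eq_mul]
        ring
      · ring
    · intro a b
      rw [Bf_symm]
      congr 1
      refine integral_congr_ae (Eventually.of_forall fun f => ?_)
      simp only
      ring
    · intro p q hp hq
      obtain ⟨p1, p2⟩ := p
      obtain ⟨q1, q2⟩ := q
      have hp' : p1 = 0 := by simpa using hp
      have hq' : q1 = 0 := by simpa using hq
      subst hp' hq'
      have e : ∫ f : MW, Y f (Finsupp.single (0, p2) 1) * Y f (Finsupp.single (0, q2) 1) ∂μ =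
          ((∫ f : MW, f p2 * f q2 ∂μ : ℝ) : ℂ) := by
        rw [← integral_complex_ofReal]
        refine integral_congr_ae (Eventually.of_forall fun f => ?_)
        simp only
        rw [Y_single, Y_single, one_mul, one_mul, W_zero, W_zero]
        push_cast
        ring
      rw [e, h2, Bf_sz, sub_eq_zero]
      push_cast
      ring
  | succ K ih =>
    intro a ha b hb
    obtain ⟨ta, ta1, ta2, Ca, Ca0, ta3⟩ := conv hI h2 K a ha
    obtain ⟨tb, tb1, tb2, Cb', Cb0, tb3⟩ := conv hI h2 K b hb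
    have a3 := tend_mul (p := 2) (q := 2) (r := 1) le_rfl (Ymem hI h2 (K + 1) a ha)
      (Ymem hI h2 (K + 1) b hb) (fun n => Ymem hI h2 K (ta n) (ta1 n))
      (fun n => Ymem hI h2 K (tb n) (tb1 n)) ta2 tb2
    have hl : Tendsto (fun n => ∫ f : MW, Y f (ta n) * Y f (tb n) ∂μ) atTop
        (𝓝 (∫ f : MW, Y f a * Y f b ∂μ)) := by
      refine tendsto_integral_of_L1' _ ?_ (Eventually.of_forall fun n => ?_) a3
      · exact (int2 (Ymem hI h2 (K + 1) a ha) (Ymem hI h2 (K + 1) b hb)).1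
      · exact int2 (Ymem hI h2 K (ta n) (ta1 n)) (Ymem hI h2 K (tb n) (tb1 n))
    have hr : Tendsto (fun n => (m : ℂ) * Bf ν (ta n) (tb n)) atTop (𝓝 (m * Bf ν a b)) :=
      (Bf_lim ν Ca0 ta3 Cb0 tb3).const_mul _
    exact tendsto_nhds_unique hl (hr.congr fun n => (ih _ (ta1 n) _ (tb1 n)).symm)

/-- the real parts are in the closed span of the values -/
theorem re_mem (hs : IsStationary μ) (hv : Integrable (fun f : MW => f 0 ^ 2) μ)
    (hI : ∀ w : ℂ, Integrable (fun f : MW => f w ^ 2) μ)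
    (h2 : ∀ w w' : ℂ, ∫ f : MW, f w * f w' ∂μ = m * cov ν (w - w')) (K : ℕ) :
    ∀ s ∈ PK K, ∃ a ∈ values μ, a =ᵐ[μ] fun f : MW => (Y f s).re := by
  induction K with
  | zero =>
    have key : ∀ s ∈ PK 0, ∀ z : ℂ, ∃ a ∈ values μ, a =ᵐ[μ] fun f : MW => (z * Y f s).re := by
      intro s hs'
      rw [PK_eq] at hs'
      induction hs' using Submodule.span_induction with
      | mem x hx =>
        obtain ⟨⟨p1, p2⟩, hp, rfl⟩ := hx
        have hp' : p1 = 0 := by simpa using hp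
        subst hp'
        intro z
        refine ⟨z.re • V hs hv p2, (values μ).smul_mem _ (V_mem hs hv p2), ?_⟩
        filter_upwards [Lp.coeFn_smul z.re (V hs hv p2), V_coe hs hv p2] with f h1 h3
        rw [h1, Pi.smul_apply, h3, Y_single, one_mul, W_zero, Complex.re_mul_ofReal, smul_eq_mul]
      | zero =>
        intro z
        refine ⟨0, (values μ).zero_mem, ?_⟩
        filter_upwards [Lp.coeFn_zero ℝ 2 μ] with f h1
        rw [h1]
        simp
      | add x y _ _ hx hy =>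
        intro z
        obtain ⟨a, ha, ha'⟩ := hx z
        obtain ⟨b, hb, hb'⟩ := hy z
        refine ⟨a + b, (values μ).add_mem ha hb, ?_⟩
        filter_upwards [Lp.coeFn_add a b, ha', hb'] with f h1 h3 h4
        rw [h1, Pi.add_apply, h3, h4, map_add, mul_add, Complex.add_re]
      | smul c x _ hx =>
        intro z
        obtain ⟨a, ha, ha'⟩ := hx (z * c)
        refine ⟨a, ha, ?_⟩
        filter_upwards [ha'] with f h3
        rw [h3, map_smul, smul_eq_mul, mul_assoc]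
    intro s hs'
    obtain ⟨a, ha, ha'⟩ := key s hs' 1
    refine ⟨a, ha, ?_⟩
    filter_upwards [ha'] with f h3
    rw [h3, one_mul]
  | succ K ih =>
    intro s hs'
    obtain ⟨t, ht, hten, -⟩ := conv hI h2 K s hs'
    choose a ha ha' using fun n => ih (t n) (ht n)
    have hm : MemLp (fun f : MW => (Y f s).re) 2 μ := (Ymem hI h2 (K + 1) s hs').re
    refine ⟨hm.toLp _, ?_, hm.coeFn_toLp⟩
    have hlim : Tendsto a atTop (𝓝 (hm.toLp _)) := by
      rw [Lp.tendsto_Lp_iff_tendsto_eLpNorm']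
      refine tendsto_of_tendsto_of_tendsto_of_le_of_le tendsto_const_nhds hten
        (fun n => zero_le) (fun n => ?_)
      refine eLpNorm_mono_ae ?_
      filter_upwards [ha' n, hm.coeFn_toLp] with f h1 h3
      rw [Pi.sub_apply, h1, h3, ← Complex.sub_re]
      exact Complex.abs_re_le_norm _
    exact values_closed.mem_of_tendsto hlim (Eventually.of_forall ha)

theorem inner_Y (hI : ∀ w : ℂ, Integrable (fun f : MW => f w ^ 2) μ)
    (h2 : ∀ w w' : ℂ, ∫ f : MW, f w * f w' ∂μ = m * cov ν (w - w')) (K : ℕ) {s t : Cb}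
    (hs : s ∈ PK K) (ht : t ∈ PK K) {a b : Lp ℝ 2 μ} (ha : a =ᵐ[μ] fun f : MW => (Y f s).re)
    (hb : b =ᵐ[μ] fun f : MW => (Y f t).re) :
    ⟪a, b⟫_ℝ = (m * (Bf ν s t + Bf ν s (cj t))).re / 2 := by
  have i1 := int2 (Ymem hI h2 K s hs) (Ymem hI h2 K t ht)
  have i2 := int2 (Ymem hI h2 K s hs) (Ymem hI h2 K (cj t) (cj_mem K t ht))
  have e : (m : ℂ) * (Bf ν s t + Bf ν s (cj t)) =
      ∫ f : MW, (Y f s * Y f t + Y f s * Y f (cj t)) ∂μ := by
    rw [integral_add i1 i2, two hI h2 K s hs t ht, two hI h2 K s hs (cj t) (cj_mem K t ht)]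
    ring
  have e2 : (∫ f : MW, (Y f s * Y f t + Y f s * Y f (cj t)) ∂μ).re =
      ∫ f : MW, (Y f s * Y f t + Y f s * Y f (cj t)).re ∂μ := (integral_re (i1.add i2)).symm
  rw [e, e2, ← inner_int, ← integral_div]
  refine integral_congr_ae ?_
  filter_upwards [ha, hb] with f h1 h3
  rw [h1, h3, Y_cj, Complex.add_re, Complex.mul_re, Complex.mul_re, Complex.conj_re,
    Complex.conj_im]
  ring

theorem Bf_single (a b : ℤ) (x y : ℂ) :
    Bf ν (Finsupp.single (a, 0) x) (Finsupp.single (b, 0) y) = x * y * BB ν a b := by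
  have h1 : ∀ (a : ℤ) (x : ℂ), (Finsupp.single (a, (0 : ℂ)) x : Cb) =
      x • Finsupp.single (a, 0) 1 := fun a x => by
    rw [Finsupp.smul_single, smul_eq_mul, mul_one]
  rw [h1 a x, Bf_smul, h1 b y, Bf_symm, Bf_smul, Bf_symm, Bf_BB]
  ring

end second

variable {μ : Measure MW} [IsProbabilityMeasure μ]

theorem BB_zero : BB unif 0 0 = 1 := by
  have := Pool.Agent.N141.BRUNIF.prob
  unfold BB cf
  simp

theorem BB_two : BB unif 2 (-2) = 1 := by
  have := Pool.Agent.N141.BRUNIF.prob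
  unfold BB cf
  simp

theorem BB_ne (a b : ℤ) (l : ℤ) (h : a + b = 2 * l) (hl : l ≠ 0) : BB unif a b = 0 := by
  unfold BB
  rw [h, Pool.Agent.N141.BRUNIF.cf_unif l hl, mul_zero]

/-- E9a -/
theorem triple (hs : IsStationary μ) (h2 : Integrable (fun f : MW => f 0 ^ 2) μ)
    (hcov : ∀ w w' : ℂ, ∫ f : MW, f w * f w' ∂μ = J0 ‖w - w'‖) :
    ∃ a ∈ values μ, ∃ b ∈ values μ, (a =ᵐ[μ] fun f : MW => √2 * (W 1 f 2 0).re) ∧
      (b =ᵐ[μ] fun f : MW => √2 * (W 1 f 2 0).im) ∧ Orthonormal ℝ ![V hs h2 0, a, b] := by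
  have := Pool.Agent.N141.BRUNIF.prob
  have hI : ∀ w : ℂ, Integrable (fun f : MW => f w ^ 2) μ := fun w =>
    (memLp_two_iff_integrable_sq (meas_eval w).aestronglyMeasurable).1 (eval_two hs h2 w)
  have hc : ∀ w w' : ℂ, ∫ f : MW, f w * f w' ∂μ = (1 : ℝ) * cov unif (w - w') := by
    intro w w'
    rw [hcov, one_mul, Pool.Agent.N141.BRUNIF.cov_unif]
  have m0 : (Finsupp.single ((0 : ℤ), (0 : ℂ)) (1 : ℂ) : Cb) ∈ PK 2 :=
    single_mem 2 _ (by norm_num) 1
  have m1 : (Finsupp.single ((2 : ℤ), (0 : ℂ)) ((√2 : ℝ) : ℂ) : Cb) ∈ PK 2 :=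
    single_mem 2 _ (by norm_num) _
  have m2 : (Finsupp.single ((2 : ℤ), (0 : ℂ)) (-(((√2 : ℝ) : ℂ) * I)) : Cb) ∈ PK 2 :=
    single_mem 2 _ (by norm_num) _
  obtain ⟨a, ha, ha'⟩ := re_mem hs h2 hI hc 2 _ m1
  obtain ⟨b, hb, hb'⟩ := re_mem hs h2 hI hc 2 _ m2
  have hv : V hs h2 0 =ᵐ[μ] fun f : MW => (Y f (Finsupp.single ((0 : ℤ), (0 : ℂ)) 1)).re := by
    filter_upwards [V_coe hs h2 0] with f h1
    rw [h1, Y_single, one_mul, W_zero, Complex.ofReal_re]
  have hs2 : ((√2 : ℝ) : ℂ) * ((√2 : ℝ) : ℂ) = 2 := by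
    rw [← Complex.ofReal_mul, Real.mul_self_sqrt (by norm_num)]
    norm_num
  have c1 : cj (Finsupp.single ((0 : ℤ), (0 : ℂ)) (1 : ℂ)) = Finsupp.single (0, 0) 1 := by
    rw [cj_single]; simp
  have c2 : ∀ x : ℂ, cj (Finsupp.single ((2 : ℤ), (0 : ℂ)) x) =
      Finsupp.single (-2, 0) ((starRingEnd ℂ) x) := by
    intro x
    rw [cj_single]
    congr 1
    norm_num
  have b02 : BB unif 0 2 = 0 := BB_ne 0 2 1 (by norm_num) (by norm_num)
  have b02' : BB unif 0 (-2) = 0 := BB_ne 0 (-2) (-1) (by norm_num) (by norm_num)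
  have b22 : BB unif 2 2 = 0 := BB_ne 2 2 2 (by norm_num) (by norm_num)
  refine ⟨a, ha, b, hb, ?_, ?_, ?_⟩
  · filter_upwards [ha'] with f h1
    rw [h1, Y_single, Complex.re_ofReal_mul]
  · filter_upwards [hb'] with f h1
    rw [h1, Y_single]
    simp
  · have i00 : ⟪V hs h2 0, V hs h2 0⟫_ℝ = 1 := by
      rw [inner_Y hI hc 2 m0 m0 hv hv, c1, Bf_single, BB_zero]
      norm_num
    have i01 : ⟪V hs h2 0, a⟫_ℝ = 0 := by
      rw [inner_Y hI hc 2 m0 m1 hv ha', c2, Bf_single, Bf_single, b02, b02']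
      norm_num
    have i02 : ⟪V hs h2 0, b⟫_ℝ = 0 := by
      rw [inner_Y hI hc 2 m0 m2 hv hb', c2, Bf_single, Bf_single, b02, b02']
      norm_num
    have i11 : ⟪a, a⟫_ℝ = 1 := by
      rw [inner_Y hI hc 2 m1 m1 ha' ha', c2, Bf_single, Bf_single, b22, BB_two,
        Complex.conj_ofReal, hs2]
      norm_num
    have i12 : ⟪a, b⟫_ℝ = 0 := by
      rw [inner_Y hI hc 2 m1 m2 ha' hb', c2, Bf_single, Bf_single, b22, BB_two]
      simp
    have i22 : ⟪b, b⟫_ℝ = 1 := by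
      rw [inner_Y hI hc 2 m2 m2 hb' hb', c2, Bf_single, Bf_single, b22, BB_two]
      have e : -(((√2 : ℝ) : ℂ) * I) * (starRingEnd ℂ) (-(((√2 : ℝ) : ℂ) * I)) = 2 := by
        rw [map_neg, map_mul, Complex.conj_ofReal, Complex.conj_I]
        linear_combination hs2 - ((√2 : ℝ) : ℂ) * ((√2 : ℝ) : ℂ) * Complex.I_sq
      rw [e]
      norm_num
    have i10 : ⟪a, V hs h2 0⟫_ℝ = 0 := by rw [real_inner_comm, i01]
    have i20 : ⟪b, V hs h2 0⟫_ℝ = 0 := by rw [real_inner_comm, i02]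
    have i21 : ⟪b, a⟫_ℝ = 0 := by rw [real_inner_comm, i12]
    rw [orthonormal_iff_ite]
    intro i j
    fin_cases i <;> fin_cases j
    · exact i00
    · exact i01
    · exact i02
    · exact i10
    · exact i11
    · exact i12
    · exact i20
    · exact i21
    · exact i22

end

end Pool.Agent.Helper47.Er
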