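import Pool.Agent.Helper26.Er.Defs
import Pool.Agent.Helper26.Ip.Asm

/-!
# Linear regression: the fourth moment of the triple (MP_6b977f_mp, ER E9b)
-/

set_option autoImplicit false
open MeasureTheory Filter Topology ProbabilityTheory
open scoped ContDiff ENNReal InnerProductSpace

namespace Pool.Agent.Helper47.Er

open Pool.Agent.W745.RW (lap W)
open Pool.Agent.N661.BR (MW J0 IsStationary shift meas_eval meas_shift IsGaussianLaw lin meas_lin
  QV KV Bal conj_W W_zero)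
open Complex (I)

noncomputable section

/-- the weights `1` at `0` and `-1` at `2` -/
def vv : ℤ →₀ ℝ := Finsupp.single 0 1 - Finsupp.single 2 1

theorem vv_apply (j : ℤ) : vv j = (if j = 0 then 1 else 0) - (if j = 2 then 1 else 0) := by
  unfold vv
  rw [Finsupp.sub_apply, Finsupp.single_apply, Finsupp.single_apply]
  simp only [eq_comm]

theorem vv_sum {E : Type*} [AddCommMonoid E] (g : ℤ → E) (hg : ∀ j, vv j = 0 → g j = 0) :
    ∑ j ∈ vv.support, g j = g 0 + g 2 := by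
  have hsub : vv.support ⊆ ({0, 2} : Finset ℤ) := by
    intro j hj
    rw [Finsupp.mem_support_iff, vv_apply] at hj
    by_contra h
    simp only [Finset.mem_insert, Finset.mem_singleton, not_or] at h
    exact hj (by simp [h.1, h.2])
  rw [Finset.sum_subset hsub (fun j _ hj => hg j (Finsupp.notMem_support_iff.1 hj)),
    Finset.sum_pair (by norm_num)]

theorem vv_bal : Bal vv := by
  refine ⟨?_, ?_⟩
  · rw [vv_sum _ (fun j hj => hj), vv_apply, vv_apply]
    norm_num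
  · rw [vv_sum _ (fun j hj => by rw [hj, mul_zero]), vv_apply, vv_apply]
    norm_num

theorem vv_KV : KV vv 0 = 3 := by
  unfold KV
  rw [vv_sum _ (fun j hj => by rw [hj, zero_mul]), vv_apply, vv_apply, vv_apply, vv_apply]
  norm_num

theorem W_neg_two (f : MW) : W 1 f (-2) 0 = (starRingEnd ℂ) (W 1 f 2 0) := by
  rw [conj_W f 2 0]
  norm_num

theorem vv_QV (f : MW) : QV vv 0 1 f 0 = ((f 0 ^ 2 - ((√2 * (W 1 f 2 0).re) ^ 2 +
      (√2 * (W 1 f 2 0).im) ^ 2) / 2 : ℝ) : ℂ) := by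
  unfold QV
  rw [vv_sum _ (fun j hj => by rw [hj, Complex.ofReal_zero, zero_mul]), vv_apply, vv_apply]
  have e1 : (2 * 0 - 0 : ℤ) = 0 := by norm_num
  have e2 : (2 * 0 - 2 : ℤ) = -2 := by norm_num
  rw [e1, e2, W_neg_two, Complex.mul_conj, W_zero, Complex.normSq_apply]
  have h2 : √2 ^ 2 = (2 : ℝ) := Real.sq_sqrt (by norm_num)
  have e3 : (√2 * (W 1 f 2 0).re) ^ 2 = 2 * (W 1 f 2 0).re ^ 2 := by rw [mul_pow, h2]
  have e4 : (√2 * (W 1 f 2 0).im) ^ 2 = 2 * (W 1 f 2 0).im ^ 2 := by rw [mul_pow, h2]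
  rw [e3, e4]
  norm_num
  ring

variable {μ : Measure MW}

/-- E9b -/
theorem quart_le (hQ : ∀ v : ℤ →₀ ℝ, Bal v → ∀ l : ℤ,
      ∫⁻ f : MW, ENNReal.ofReal (‖QV v l 1 f 0‖ ^ 2) ∂μ ≤ ENNReal.ofReal (KV v l)) :
    ∫⁻ f : MW, ENNReal.ofReal ((f 0 ^ 2 - ((√2 * (W 1 f 2 0).re) ^ 2 +
      (√2 * (W 1 f 2 0).im) ^ 2) / 2) ^ 2) ∂μ ≤ 3 := by
  have h := hQ vv vv_bal 0
  rw [vv_KV] at h
  refine le_trans (le_of_eq (lintegral_congr fun f => ?_)) (h.trans (le_of_eq (by simp)))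
  rw [vv_QV, Complex.norm_real, Real.norm_eq_abs, sq_abs]

end

end Pool.Agent.Helper47.Er
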